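import Pool.Agent.H.MP_d84bc5_an.Main

namespace Pool.Agent.Results.MP_d84bc5_an.Value

open Pool.Agent.H.MP_d84bc5_an

variable (X : Type) [NormedAddCommGroup X]

def Net (D : Set X) (ρ : ℝ) : Prop :=
  (∀ p ∈ D, ∀ q ∈ D, p ≠ q → 2 ≤ ‖p - q‖) ∧ ∀ x, ∃ p ∈ D, ‖x - p‖ ≤ ρ

def IsGamma (r : ℝ) : Prop := IsGLB {ρ | ∃ D : Set X, Net X D ρ} r

def IsGammaStar (r : ℝ) : Prop := IsGLB {ρ | ∃ D : AddSubgroup X, Net X D ρ} r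

theorem result : IsGamma (WithLp 2 (lp (fun _ : ℕ => ℝ) 1 × ℝ)) (2 / √3) ∧
    IsGammaStar (WithLp 2 (lp (fun _ : ℕ => ℝ) 1 × ℝ)) (2 / √3) := by
  have h0 : 0 < 2 / √3 := by positivity
  have h1 : 3 * (2 / √3) ^ 2 = 4 := by rw [div_pow, Real.sq_sqrt (by norm_num)]; norm_num
  obtain ⟨G, g1, g2⟩ := upper h0 h1
  have a : ∀ D ρ, Net X D ρ → 2 / √3 ≤ ρ := fun D ρ h => not_lt.1 fun c => by
    obtain ⟨b, b1, b2⟩ := exists_between c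
    obtain ⟨a, a1, a2⟩ := exists_between b1
    obtain ⟨p, -, hp⟩ := h.2 0
    have := lower D h.1 h.2 a1 a2
    nlinarith [norm_nonneg (0 - p)]
  have b : ∀ ε > 0, Net X G (2 / √3 + ε) := fun ε hε =>
    ⟨fun p hp q hq e => g1 _ (sub_mem hp hq) (sub_ne_zero.2 e), g2 ε hε⟩
  exact ⟨⟨fun ρ ⟨D, h⟩ => a D ρ h, fun r hr => le_of_forall_pos_le_add fun ε hε => hr ⟨_, b ε hε⟩⟩,
    fun ρ ⟨D, h⟩ => a D ρ h, fun r hr => le_of_forall_pos_le_add fun ε hε => hr ⟨_, b ε hε⟩⟩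

end Pool.Agent.Results.MP_d84bc5_an.Value
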